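import Pool.Agent.X245.VS.Defs
import Pool.Agent.X245.Util

/-!
# Scheduling on a path is in NP
-/

namespace Pool.Agent.X245.VS

open Pool.Agent.NPC

set_option autoImplicit false

/-- codes -/
abbrev Code : Type := (ℕ × List ℕ × List ℕ × List ℕ × List ℕ) × ℕ

/-- travel times -/
def dN (c : Code) (i j : ℕ) : ℕ :=
  if i ≤ j then ((c.1.2.1.take j).drop i).sum else ((c.1.2.2.1.take i).drop j).sum

/-- one step -/
def stepN (c : Code) (s : ℕ × ℕ) (j : ℕ) : ℕ × ℕ :=
  (j, min (c.2 + 1) (max (s.2 + dN c s.1 j) (c.1.2.2.2.1.getD j 0) + c.1.2.2.2.2.getD j 0))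

/-- is this the code of an instance with positive handling times? -/
def okN (c : Code) : Bool :=
  decide (c.1.1 < c.1.2.1.length + 1) && (decide (c.1.2.2.1.length = c.1.2.1.length) &&
    (decide (c.1.2.2.2.1.length = c.1.2.1.length + 1) &&
      (decide (c.1.2.2.2.2.length = c.1.2.1.length + 1) &&
        c.1.2.2.2.2.all fun h => decide (0 < h))))

/-- the check of a schedule -/
def chk (x : Code × List ℕ) : Bool :=
  okN x.1 && (decide (x.2.length = x.1.1.2.1.length + 1) &&
    (((List.range (x.1.1.2.1.length + 1)).all fun v => decide (v ∈ x.2)) &&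
      decide ((x.2.foldl (stepN x.1) (x.1.1.1, 0)).2 +
        dN x.1 (x.2.foldl (stepN x.1) (x.1.1.1, 0)).1 x.1.1.1 ≤ x.1.2)))

theorem sum_seg (n : ℕ) (f : Fin n → ℕ) (i j : ℕ) (hij : i ≤ j) (hj : j ≤ n) :
    ((((List.finRange n).map f).take j).drop i).sum =
      ∑ k with i ≤ k.val ∧ k.val < j, f k := by
  have h1 : ∀ m ≤ n, (((List.finRange n).map f).take m).sum = ∑ k with k.val < m, f k := by
    intro m hm
    induction m with
    | zero => simp
    | succ m ih =>
      have hmn : m < n := by omega
      rw [List.take_add_one, List.sum_append, ih (by omega)]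
      have e : ((List.finRange n).map f)[m]?.toList = [f ⟨m, hmn⟩] := by
        rw [List.getElem?_eq_getElem (by simpa using hmn)]
        simp
      rw [e, List.sum_singleton]
      have e2 : (Finset.univ.filter fun k : Fin n => k.val < m + 1) =
          insert ⟨m, hmn⟩ (Finset.univ.filter fun k : Fin n => k.val < m) := by
        ext k
        simp only [Finset.mem_filter, Finset.mem_univ, true_and, Finset.mem_insert, Fin.ext_iff]
        omega
      rw [e2, Finset.sum_insert (by simp)]
      ring
  have h2 := h1 j hj
  have h3 := h1 i (by omega)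
  have h4 : (((List.finRange n).map f).take i).sum + ((((List.finRange n).map f).take j).drop i).sum =
      (((List.finRange n).map f).take j).sum := by
    have e : ((List.finRange n).map f).take i = (((List.finRange n).map f).take j).take i := by
      rw [List.take_take, min_eq_left hij]
    rw [e, ← List.sum_append, List.take_append_drop]
  have h5 : (∑ k with k.val < i, f k) + (∑ k with i ≤ k.val ∧ k.val < j, f k) =
      ∑ k with k.val < j, f k := by
    rw [← Finset.sum_union]
    · refine Finset.sum_congr ?_ fun _ _ => rfl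
      ext k
      simp only [Finset.mem_union, Finset.mem_filter, Finset.mem_univ, true_and]
      omega
    · rw [Finset.disjoint_filter]
      intro k _ hk
      omega
  omega

theorem dN_eq (I : Inst) (K : ℕ) (i j : Fin (I.n + 1)) :
    dN (I.code, K) i.val j.val = I.travel i j := by
  unfold dN Inst.travel Inst.code
  simp only
  have hi : i.val < I.n + 1 := i.2
  have hj : j.val < I.n + 1 := j.2
  by_cases h : i ≤ j
  · have h' : i.val ≤ j.val := h
    rw [if_pos h', if_pos h, sum_seg _ _ _ _ h' (by omega)]
    rfl
  · have h' : ¬ i.val ≤ j.val := h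
    rw [if_neg h', if_neg h, sum_seg _ _ _ _ (by omega) (by omega)]
    rfl

theorem getD_map_finRange {n : ℕ} (f : Fin n → ℕ) (k : Fin n) :
    ((List.finRange n).map f).getD k.val 0 = f k := by
  rw [List.getD_eq_getElem _ _ (by simp)]
  simp

theorem fold_iff (I : Inst) (K : ℕ) (i : Fin (I.n + 1)) (t : ℕ) (π : List (Fin (I.n + 1))) :
    I.finish i t π ≤ K ↔
      ((π.map Fin.val).foldl (stepN (I.code, K)) (i.val, min (K + 1) t)).2 +
        dN (I.code, K) ((π.map Fin.val).foldl (stepN (I.code, K)) (i.val, min (K + 1) t)).1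
          I.start.val ≤ K := by
  induction π generalizing i t with
  | nil =>
    simp only [List.map_nil, List.foldl_nil]
    rw [dN_eq, Inst.finish]
    omega
  | cons j π ih =>
    rw [List.map_cons, List.foldl_cons, Inst.finish, ih]
    have e : stepN (I.code, K) (i.val, min (K + 1) t) j.val =
        (j.val, min (K + 1) (max (t + I.travel i j) (I.release j) + I.handling j)) := by
      unfold stepN
      simp only
      rw [dN_eq]
      have e1 : I.code.2.2.2.1.getD j.val 0 = I.release j := getD_map_finRange _ _
      have e2 : I.code.2.2.2.2.getD j.val 0 = I.handling j := getD_map_finRange _ _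
      rw [e1, e2]
      congr 1
      omega
    rw [e]

theorem map_getD_finRange (l : List ℕ) (n : ℕ) (h : l.length = n) :
    (List.finRange n).map (fun k => l.getD k.val 0) = l := by
  subst h
  refine List.ext_getElem (by simp) fun i h1 h2 => ?_
  simp

/-- the set of codes of the positive instances -/
def SVSc (c : Code) : Prop := ∃ x : Inst × ℕ, (x.1.code, x.2) = c ∧ SVS x

theorem SVSc_iff (c : Code) : SVSc c ↔ ∃ π : List ℕ, chk (c, π) = true ∧
    ∀ v ∈ π, v < c.1.2.1.length + 1 := by
  constructor
  · rintro ⟨⟨I, K⟩, rfl, hpos, π, ⟨hnd, hall⟩, hle⟩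
    simp only at hpos hall hle hnd
    refine ⟨π.map Fin.val, ?_, ?_⟩
    · unfold chk okN
      simp only [Bool.and_eq_true, decide_eq_true_eq, List.all_eq_true, List.mem_range]
      have hlen : π.length = I.n + 1 := by
        have h1 : π.toFinset = Finset.univ := by
          ext v
          simp [hall v]
        have h2 := List.toFinset_card_of_nodup hnd
        rw [h1, Finset.card_univ, Fintype.card_fin] at h2
        exact h2.symm
      have hc : I.code.2.1.length = I.n := by simp [Inst.code]
      rw [hc]
      refine ⟨⟨I.start.2, by simp [Inst.code], by simp [Inst.code], by simp [Inst.code], ?_⟩,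
        by rw [List.length_map, hlen], ?_, ?_⟩
      · intro h hh
        simp only [Inst.code, List.mem_map] at hh
        obtain ⟨v, _, rfl⟩ := hh
        exact hpos v
      · intro v hv
        exact List.mem_map.2 ⟨⟨v, hv⟩, hall _, rfl⟩
      · have := (fold_iff I K I.start 0 π).1 hle
        rw [Nat.min_eq_right (Nat.zero_le _)] at this
        exact this
    · intro v hv
      obtain ⟨w, _, rfl⟩ := List.mem_map.1 hv
      have hc : I.code.2.1.length = I.n := by simp [Inst.code]
      change w.val < I.code.2.1.length + 1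
      rw [hc]
      exact w.2
  · rintro ⟨π, hchk, hlt⟩
    obtain ⟨⟨s, e, w, r, h⟩, K⟩ := c
    simp only at hlt
    unfold chk okN at hchk
    simp only [Bool.and_eq_true, decide_eq_true_eq, List.all_eq_true, List.mem_range] at hchk
    obtain ⟨⟨h1, h2, h3, h4, h5⟩, h6, h7, h8⟩ := hchk
    set I : Inst := ⟨e.length, ⟨s, h1⟩, fun k => e.getD k.val 0, fun k => w.getD k.val 0,
      fun v => r.getD v.val 0, fun v => h.getD v.val 0⟩ with hI
    have hcode : I.code = (s, e, w, r, h) := by
      change (s, (List.finRange e.length).map (fun k => e.getD k.val 0),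
        (List.finRange e.length).map (fun k => w.getD k.val 0),
        (List.finRange (e.length + 1)).map (fun v => r.getD v.val 0),
        (List.finRange (e.length + 1)).map (fun v => h.getD v.val 0)) = (s, e, w, r, h)
      rw [map_getD_finRange e _ rfl, map_getD_finRange w _ h2, map_getD_finRange r _ h3,
        map_getD_finRange h _ h4]
    obtain ⟨π', hπ'⟩ : ∃ π' : List (Fin (e.length + 1)), π'.map Fin.val = π := by
      refine ⟨π.pmap (fun v hv => (⟨v, hv⟩ : Fin (e.length + 1))) hlt, ?_⟩
      rw [List.map_pmap, List.pmap_eq_map, List.map_id']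
    have hall : ∀ v : Fin (e.length + 1), v ∈ π' := by
      intro v
      have h9 := h7 v.val v.2
      rw [← hπ', List.mem_map] at h9
      obtain ⟨w', hw, hwv⟩ := h9
      rwa [Fin.ext hwv] at hw
    refine ⟨(I, K), by rw [hcode], ?_, π', ⟨?_, hall⟩, ?_⟩
    · intro v
      have hv : v.val < h.length := by rw [h4]; exact v.2
      change 0 < h.getD v.val 0
      rw [List.getD_eq_getElem _ _ hv]
      exact h5 _ (List.getElem_mem _)
    · have h9 : π'.toFinset.card = π'.length := by
        have h10 : π'.toFinset = Finset.univ := by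
          ext v
          simp [hall v]
        rw [h10, Finset.card_univ, Fintype.card_fin]
        have := congrArg List.length hπ'
        rw [List.length_map] at this
        omega
      rw [List.card_toFinset] at h9
      have h10 : π'.dedup = π' := (List.dedup_sublist _).eq_of_length h9
      rw [← h10]
      exact List.nodup_dedup _
    · have h9 := (fold_iff I K I.start 0 π').2
      change I.finish I.start 0 π' ≤ K
      apply h9
      have e1 : I.start.val = s := rfl
      rw [Nat.min_eq_right (Nat.zero_le _), hcode, e1]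
      have e2 : (List.map Fin.val π' : List ℕ) = π := hπ'
      erw [e2]
      exact h8

theorem chk_poly : NPC.Poly chk := by
  have hfold : NPC.Poly (fun x : Code × List ℕ => x.2.foldl (stepN x.1) (x.1.1.1, 0)) := by
    refine NPC.Poly.foldl (l := fun x : Code × List ℕ => x.2)
      (s := fun x : Code × List ℕ => (x.1.1.1, 0)) (F := fun x s j => stepN x.1 s j)
      (NPC.Poly.snd NPC.Poly.id) (by fun_prop) ?_
      (Polynomial.C 8 * Polynomial.X + Polynomial.C 20) ?_
    · unfold stepN dN
      fun_prop
    · intro x k hk
      have hfst : ∀ (l : List ℕ) (s : ℕ × ℕ), (∀ v ∈ l, sz v ≤ sz x) → sz s.1 ≤ sz x →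
          s.2 ≤ x.1.2 + 1 →
          sz (l.foldl (stepN x.1) s).1 ≤ sz x ∧ (l.foldl (stepN x.1) s).2 ≤ x.1.2 + 1 := by
        intro l
        induction l with
        | nil => intro s _ h1 h2; exact ⟨h1, h2⟩
        | cons j l ih =>
          intro s h0 h1 h2
          rw [List.foldl_cons]
          exact ih _ (fun v hv => h0 v (List.mem_cons_of_mem _ hv)) (h0 j (by simp))
            (min_le_left _ _)
      have hx1 : sz x.1.1.1 ≤ sz x := by
        have h1 : sz x = sz x.1 + sz x.2 + 1 := by
          rcases x with ⟨c, l⟩; simp only [sz_pair]; try omega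
        have h2 : sz x.1 = sz x.1.1 + sz x.1.2 + 1 := by
          rcases x with ⟨⟨c, K⟩, l⟩; simp only [sz_pair]; try omega
        have h3 : sz x.1.1 = sz x.1.1.1 + sz x.1.1.2 + 1 := by
          rcases x with ⟨⟨⟨s, c⟩, K⟩, l⟩; simp only [sz_pair]; try omega
        omega
      have hx2 : sz x.1.2 ≤ sz x := by
        have h1 : sz x = sz x.1 + sz x.2 + 1 := by
          rcases x with ⟨c, l⟩; simp only [sz_pair]; try omega
        have h2 : sz x.1 = sz x.1.1 + sz x.1.2 + 1 := by
          rcases x with ⟨⟨c, K⟩, l⟩; simp only [sz_pair]; try omega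
        omega
      have hx3 : sz x.2 ≤ sz x := by
        have h1 : sz x = sz x.1 + sz x.2 + 1 := by
          rcases x with ⟨c, l⟩; simp only [sz_pair]; try omega
        omega
      obtain ⟨h1, h2⟩ := hfst (x.2.take k) (x.1.1.1, 0) (fun v hv => by
        have := sz_le_of_mem (List.mem_of_mem_take hv)
        omega) hx1 (Nat.zero_le _)
      have h3 := sz_nat_mono_le h2
      have h4 : sz (x.1.2 + 1) ≤ 2 * sz x.1.2 + 8 := by
        have h5 := sz_nat_le (x.1.2 + 1)
        have h6 : (x.1.2 + 1).size ≤ x.1.2.size + 1 := by
          rw [Nat.size_le]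
          have := Nat.lt_size_self x.1.2
          rw [pow_succ]
          omega
        have h7 := size_le_sz x.1.2
        omega
      have h5 : sz (List.foldl (stepN x.1) (x.1.1.1, 0) (x.2.take k)) =
          sz (List.foldl (stepN x.1) (x.1.1.1, 0) (x.2.take k)).1 +
          sz (List.foldl (stepN x.1) (x.1.1.1, 0) (x.2.take k)).2 + 1 := by
        generalize List.foldl (stepN x.1) (x.1.1.1, 0) (x.2.take k) = z
        rcases z with ⟨z1, z2⟩
        simp only [sz_pair]; try omega
      change sz (List.foldl (stepN x.1) (x.1.1.1, 0) (x.2.take k)) ≤ _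
      rw [h5]
      simp only [Polynomial.eval_add, Polynomial.eval_mul, Polynomial.eval_C, Polynomial.eval_X]
      omega
  have h1 : NPC.Poly (fun x : Code × List ℕ => okN x.1) := by
    unfold okN
    fun_prop
  have hl : UPoly (fun x : Code × List ℕ => x.1.1.2.1.length + 1) :=
    UPoly.add (UPoly.length (by fun_prop)) (UPoly.const 1)
  have h2 : NPC.Poly (fun x : Code × List ℕ =>
      (List.range (x.1.1.2.1.length + 1)).all fun v => decide (v ∈ x.2)) :=
    NPC.Poly.all (l := fun x : Code × List ℕ => List.range (x.1.1.2.1.length + 1))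
      (p := fun x v => decide (v ∈ x.2)) hl.range (by fun_prop)
  have h3 : ∀ g : Code × List ℕ → ℕ × ℕ, NPC.Poly g → NPC.Poly (fun x : Code × List ℕ =>
      decide ((g x).2 + dN x.1 (g x).1 x.1.1.1 ≤ x.1.2)) := by
    intro g hg
    unfold dN
    fun_prop
  have h4 : NPC.Poly (fun x : Code × List ℕ =>
      decide (x.2.length = x.1.1.2.1.length + 1)) := by fun_prop
  exact NPC.Poly.and h1 (NPC.Poly.and h4 (NPC.Poly.and h2 (h3 _ hfold)))

/-- the decision problem for codes is in NP -/
theorem inNPP_SVSc : InNPP SVSc := by
  refine inNPP_of (α := Code) (β := List ℕ) (R := chk) chk_poly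
    (Polynomial.X * (Polynomial.C 8 * Polynomial.X + Polynomial.C 20) + Polynomial.C 1) ?_
  intro c
  rw [SVSc_iff]
  constructor
  · rintro ⟨π, h1, h2⟩
    refine ⟨π, ?_, h1⟩
    have hlen : π.length = c.1.2.1.length + 1 := by
      unfold chk at h1
      simp only [Bool.and_eq_true, decide_eq_true_eq] at h1
      exact h1.2.1
    have hc : c.1.2.1.length + 1 ≤ sz c := by
      have h3 := length_lt_sz c.1.2.1
      have h4 : sz c = sz c.1 + sz c.2 + 1 := by
        rcases c with ⟨c, l⟩; simp only [sz_pair]; try omega
      have h5 : sz c.1 = sz c.1.1 + sz c.1.2 + 1 := by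
        rcases c with ⟨⟨c, K⟩, l⟩; simp only [sz_pair]; try omega
      have h6 : sz c.1.2 = sz c.1.2.1 + sz c.1.2.2 + 1 := by
        rcases c with ⟨⟨s, c, K⟩, l⟩; simp only [sz_pair]; try omega
      omega
    have hsz : ∀ v ∈ π, sz v ≤ 8 * sz c + 18 := by
      intro v hv
      have h3 := h2 v hv
      have h5 := sz_nat_le v
      have h6 := Poly.size_le_self v
      omega
    have h7 := sz_le_length_mul π (8 * sz c + 18) hsz
    simp only [Polynomial.eval_add, Polynomial.eval_mul, Polynomial.eval_C, Polynomial.eval_X]
    have h8 : π.length ≤ sz c := by omega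
    refine h7.trans ?_
    have h9 := Nat.mul_le_mul_right (8 * sz c + 18 + 2) h8
    nlinarith
  · rintro ⟨π, _, h1⟩
    refine ⟨π, h1, ?_⟩
    unfold chk at h1
    simp only [Bool.and_eq_true, decide_eq_true_eq, List.all_eq_true, List.mem_range] at h1
    obtain ⟨-, h2, h3, -⟩ := h1
    have hsub : Finset.range (c.1.2.1.length + 1) ⊆ π.toFinset := by
      intro v hv
      exact List.mem_toFinset.2 (h3 v (Finset.mem_range.1 hv))
    have hcard : π.toFinset.card ≤ (Finset.range (c.1.2.1.length + 1)).card := by
      rw [Finset.card_range, ← h2]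
      exact List.toFinset_card_le _
    have heq := Finset.eq_of_subset_of_card_le hsub hcard
    intro v hv
    have : v ∈ Finset.range (c.1.2.1.length + 1) := by
      rw [heq]; exact List.mem_toFinset.2 hv
    exact Finset.mem_range.1 this

/-- the decision problem is in NP -/
theorem inNPP_SVS : InNPP SVS := by
  have h := inNPP_SVSc
  unfold InNPP at h ⊢
  have e : lang SVS = lang SVSc := by
    unfold lang
    ext x
    constructor
    · rintro ⟨⟨I, K⟩, h1, h2⟩
      exact ⟨(I.code, K), h1, ⟨(I, K), rfl, h2⟩⟩
    · rintro ⟨c, h1, ⟨I, K⟩, rfl, h2⟩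
      exact ⟨(I, K), h1, h2⟩
  rw [e]
  exact h

end Pool.Agent.X245.VS
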