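import Pool.Agent.NPC.Defs

/-!
# Single-vehicle scheduling on a path with release and handling times: the decision problem
-/

namespace Pool.Agent.X245.VS

open Pool.Agent.NPC

set_option autoImplicit false

/-- An instance of the single-vehicle scheduling problem on a path. The vertices of the path are
`0, 1, …, n` in their order along the line; the edge `k` joins the vertices `k` and `k + 1`. -/
structure Inst where
  /-- the number of edges -/
  n : ℕ
  /-- the start vertex -/
  start : Fin (n + 1)
  /-- the travel time from the vertex `k` to the vertex `k + 1` -/
  east : Fin n → ℕ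
  /-- the travel time from the vertex `k + 1` to the vertex `k` -/
  west : Fin n → ℕ
  /-- the release times -/
  release : Fin (n + 1) → ℕ
  /-- the handling times -/
  handling : Fin (n + 1) → ℕ

/-- The travel time from the vertex `i` to the vertex `j`: the sum of the travel times of the edges
between them, in the right direction. -/
def Inst.travel (I : Inst) (i j : Fin (I.n + 1)) : ℕ :=
  if i ≤ j then ∑ k with i ≤ Fin.castSucc k ∧ Fin.castSucc k < j, I.east k
  else ∑ k with j ≤ Fin.castSucc k ∧ Fin.castSucc k < i, I.west k

/-- The time at which the vehicle is back at the start vertex, if it is at the vertex `i` at time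
`t` and still has to process the jobs of the given list, in this order. -/
def Inst.finish (I : Inst) : Fin (I.n + 1) → ℕ → List (Fin (I.n + 1)) → ℕ
  | i, t, [] => t + I.travel i I.start
  | i, t, j :: π => I.finish j (max (t + I.travel i j) (I.release j) + I.handling j) π

/-- A schedule: a list that contains every job exactly once. -/
def Inst.IsSchedule (I : Inst) (π : List (Fin (I.n + 1))) : Prop := π.Nodup ∧ ∀ v, v ∈ π

/-- The completion time of a schedule. -/
def Inst.completion (I : Inst) (π : List (Fin (I.n + 1))) : ℕ := I.finish I.start 0 π

/-- The tables of an instance. -/
def Inst.code (I : Inst) : ℕ × List ℕ × List ℕ × List ℕ × List ℕ :=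
  (I.start.val, (List.finRange I.n).map I.east, (List.finRange I.n).map I.west,
    (List.finRange (I.n + 1)).map I.release, (List.finRange (I.n + 1)).map I.handling)

theorem Inst.code_injective : Function.Injective Inst.code := by
  rintro ⟨n, s, e, w, r, h⟩ ⟨n', s', e', w', r', h'⟩ hh
  simp only [Inst.code, Prod.mk.injEq] at hh
  obtain ⟨h1, h2, h3, h4, h5⟩ := hh
  have hl := congrArg List.length h2
  simp only [List.length_map, List.length_finRange] at hl
  subst hl
  have e1 : s = s' := Fin.ext h1
  have e2 : e = e' := funext fun k => (List.map_inj_left.1 h2) k (List.mem_finRange k)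
  have e3 : w = w' := funext fun k => (List.map_inj_left.1 h3) k (List.mem_finRange k)
  have e4 : r = r' := funext fun k => (List.map_inj_left.1 h4) k (List.mem_finRange k)
  have e5 : h = h' := funext fun k => (List.map_inj_left.1 h5) k (List.mem_finRange k)
  rw [e1, e2, e3, e4, e5]

/-- An instance is encoded by its tables; numbers are written in binary. -/
instance : TEnc Inst := ⟨fun I => toT I.code, fun _ _ h => Inst.code_injective (TEnc.inj h)⟩

/-- The decision problem for positive handling times: given an instance and a bound `K`, are all
the handling times positive, and is there a schedule whose completion time is at most `K`? -/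
def SVS (x : Inst × ℕ) : Prop :=
  (∀ v, 0 < x.1.handling v) ∧ ∃ π, x.1.IsSchedule π ∧ x.1.completion π ≤ x.2

/-- The restriction to symmetric positive travel times and a start vertex at the end of the
path. -/
def SVSsym (x : Inst × ℕ) : Prop :=
  x.1.start = 0 ∧ (∀ k, x.1.east k = x.1.west k) ∧ (∀ k, 0 < x.1.east k) ∧ SVS x

end Pool.Agent.X245.VS
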