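import Pool.Agent.X245.VS.Red

/-!
# Scheduling on a path: from a subset to a schedule
-/

namespace Pool.Agent.X245.VS

set_option autoImplicit false

open Finset

section Gen

variable (N : ℕ) (len r h : ℕ → ℕ)

/-- state after a list of jobs -/
def run : ℕ × ℕ → List ℕ → ℕ × ℕ
  | s, [] => s
  | s, j :: l => run (j, max (s.2 + D N len s.1 j) (r j) + h j) l

theorem run_append (s : ℕ × ℕ) (l1 l2 : List ℕ) :
    run N len r h s (l1 ++ l2) = run N len r h (run N len r h s l1) l2 := by
  induction l1 generalizing s with
  | nil => rfl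
  | cons j l ih => simp only [List.cons_append, run, ih]

theorem fin_append (s : ℕ × ℕ) (l1 l2 : List ℕ) :
    fin N len r h s.1 s.2 (l1 ++ l2) =
      fin N len r h (run N len r h s l1).1 (run N len r h s l1).2 l2 := by
  induction l1 generalizing s with
  | nil => rfl
  | cons j l ih =>
    simp only [List.cons_append, run, fin]
    exact ih (j, max (s.2 + D N len s.1 j) (r j) + h j)

theorem D_prefix {p q : ℕ} (h1 : p ≤ q) (h2 : q ≤ N) :
    (∑ k ∈ range p, len k) + D N len p q = ∑ k ∈ range q, len k := by
  have := D_add N len (Nat.zero_le p) h1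
  rw [D_comm N len 0 q, D_comm N len 0 p, D_zero N len q h2, D_zero N len p (by omega)] at this
  omega

end Gen

variable (a : List ℕ) (T : ℕ) (S : Finset ℕ)

/-- the jobs of a gadget processed on the way out -/
def blk (i : ℕ) : List ℕ := if i ∈ S then [2 * i + 2] else [2 * i + 2, 2 * i + 1]

/-- the way out -/
def outw (n : ℕ) : List ℕ := (List.range n).flatMap (blk S)

/-- the way home -/
def home (n : ℕ) : List ℕ := (((List.range n).filter (· ∈ S)).map fun i => 2 * i + 1).reverse

/-- the prefix sums -/
abbrev PL (v : ℕ) : ℕ := ∑ k ∈ range v, ln a k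

theorem ln_odd (i : ℕ) : ln a (2 * i + 1) = a.getD i 0 := by
  unfold ln
  rw [if_neg (by omega), show (2 * i + 1) / 2 = i by omega]

theorem rl_odd {i : ℕ} (hi : i < a.length) : rl a T (2 * i + 1) = (i + 1) * M a + PL a (2 * i + 1) := by
  rw [PL, sum_ln_odd]
  unfold rl
  rw [if_neg (by unfold NE; omega), if_pos (by omega), show (2 * i + 1) / 2 = i by omega]

theorem rl_even (i : ℕ) : rl a T (2 * i) = 0 := by
  unfold rl
  rw [if_neg (by unfold NE; omega), if_neg (by omega)]

theorem run_outw (n : ℕ) (hn' : n ≤ a.length) :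
    (run (NE a) (ln a) (rl a T) (hn a) (0, 1) (outw S n)).1 ≤ 2 * n ∧
    (run (NE a) (ln a) (rl a T) (hn a) (0, 1) (outw S n)).2 =
      PL a (run (NE a) (ln a) (rl a T) (hn a) (0, 1) (outw S n)).1 + 1 + n * M a +
        4 * ∑ i ∈ (range n).filter (fun i => i ∉ S), a.getD i 0 := by
  induction n with
  | zero =>
    have : outw S 0 = [] := rfl
    rw [this]
    simp [run]
  | succ n ih =>
    have ih := ih (by omega)
    have e : outw S (n + 1) = outw S n ++ blk S n := by
      unfold outw
      rw [List.range_succ, List.flatMap_append]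
      simp
    rw [e, run_append]
    generalize run (NE a) (ln a) (rl a T) (hn a) (0, 1) (outw S n) = s at ih ⊢
    obtain ⟨hs1, hs2⟩ := ih
    have hD : PL a s.1 + D (NE a) (ln a) s.1 (2 * n + 2) = PL a (2 * n + 2) :=
      D_prefix (NE a) (ln a) (p := s.1) (q := 2 * n + 2) (by omega) (by unfold NE; omega)
    have hr0 : rl a T (2 * n + 2) = 0 := rl_even a T (n + 1)
    have hP : PL a (2 * n + 2) = PL a (2 * n + 1) + a.getD n 0 := by
      change ∑ k ∈ range (2 * n + 1 + 1), ln a k = _
      rw [sum_range_succ, ln_odd]
    have hnM : (n + 1) * M a = n * M a + M a := by ring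
    by_cases hS : n ∈ S
    · have hb : blk S n = [2 * n + 2] := by unfold blk; rw [if_pos hS]
      have hf : (range (n + 1)).filter (fun i => i ∉ S) = (range n).filter (fun i => i ∉ S) := by
        rw [range_add_one, filter_insert, if_neg (by simpa using hS)]
      rw [hb, hf]
      simp only [run]
      rw [hr0, hn_even a (by omega)]
      refine ⟨by omega, ?_⟩
      simp only [Nat.zero_le, sup_of_le_left]
      change _ + D (NE a) (ln a) s.1 (2 * n + 2) + M a = PL a (2 * n + 2) + _ + _ + _
      omega
    · have hb : blk S n = [2 * n + 2, 2 * n + 1] := by unfold blk; rw [if_neg hS]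
      have hf : ∑ i ∈ (range (n + 1)).filter (fun i => i ∉ S), a.getD i 0 =
          ∑ i ∈ (range n).filter (fun i => i ∉ S), a.getD i 0 + a.getD n 0 := by
        rw [range_add_one, filter_insert, if_pos hS, sum_insert (by simp)]
        ring
      rw [hb, hf]
      simp only [run]
      rw [hr0, hn_even a (by omega), hn_odd a (by omega), rl_odd a T (by omega)]
      refine ⟨by omega, ?_⟩
      have hD2 : PL a (2 * n + 1) + D (NE a) (ln a) (2 * n + 1) (2 * n + 2) = PL a (2 * n + 2) :=
        D_prefix (NE a) (ln a) (p := 2 * n + 1) (q := 2 * n + 2) (by omega)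
        (by unfold NE; omega)
      rw [D_comm] at hD2
      have hmax : (n + 1) * M a + PL a (2 * n + 1) ≤
          s.2 + D (NE a) (ln a) s.1 (2 * n + 2) + M a + D (NE a) (ln a) (2 * n + 2) (2 * n + 1) := by
        omega
      simp only [Nat.zero_le, sup_of_le_left]
      rw [max_eq_left hmax]
      change _ = PL a (2 * n + 1) + _ + _ + _
      omega

/-- the schedule -/
def sched : List ℕ := 0 :: (outw S a.length ++ NE a :: home S a.length)

theorem mem_outw (n v : ℕ) : v ∈ outw S n ↔
    (∃ i < n, v = 2 * i + 2) ∨ ∃ i < n, i ∉ S ∧ v = 2 * i + 1 := by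
  unfold outw blk
  rw [List.mem_flatMap]
  constructor
  · rintro ⟨i, hi, h⟩
    have hi := List.mem_range.1 hi
    split_ifs at h with hS
    · left; exact ⟨i, hi, by simpa using h⟩
    · rw [List.mem_cons, List.mem_singleton] at h
      rcases h with h | h
      · left; exact ⟨i, hi, h⟩
      · right; exact ⟨i, hi, hS, h⟩
  · rintro (⟨i, hi, h⟩ | ⟨i, hi, hS, h⟩)
    · refine ⟨i, List.mem_range.2 hi, ?_⟩
      split_ifs <;> simp [h]
    · refine ⟨i, List.mem_range.2 hi, ?_⟩
      rw [if_neg hS]; simp [h]

theorem mem_home (n v : ℕ) : v ∈ home S n ↔ ∃ i < n, i ∈ S ∧ v = 2 * i + 1 := by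
  unfold home
  rw [List.mem_reverse, List.mem_map]
  constructor
  · rintro ⟨i, hi, h⟩
    rw [List.mem_filter, List.mem_range] at hi
    exact ⟨i, hi.1, by simpa using hi.2, h.symm⟩
  · rintro ⟨i, hi, hS, h⟩
    exact ⟨i, List.mem_filter.2 ⟨List.mem_range.2 hi, by simpa using hS⟩, h.symm⟩

theorem mem_sched (v : ℕ) : v ∈ sched a S ↔ v ≤ NE a := by
  unfold sched
  rw [List.mem_cons, List.mem_append, List.mem_cons, mem_outw, mem_home]
  unfold NE
  constructor
  · rintro (h | (⟨i, hi, h⟩ | ⟨i, hi, hS, h⟩) | h | ⟨i, hi, hS, h⟩) <;> omega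
  · intro h
    rcases Nat.eq_zero_or_pos v with h0 | h0
    · left; exact h0
    right
    rcases Nat.eq_or_lt_of_le h with h1 | h1
    · right; left; exact h1
    obtain ⟨i, hi⟩ : ∃ i, v = 2 * i + 1 ∨ v = 2 * i + 2 := ⟨(v - 1) / 2, by omega⟩
    rcases hi with hi | hi
    · by_cases hS : i ∈ S
      · right; right; exact ⟨i, by omega, hS, hi⟩
      · left; right; exact ⟨i, by omega, hS, hi⟩
    · left; left; exact ⟨i, by omega, hi⟩

theorem length_outw (n : ℕ) : (outw S n).length + (home S n).length = 2 * n := by
  unfold home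
  rw [List.length_reverse, List.length_map]
  induction n with
  | zero => rfl
  | succ n ih =>
    have e : outw S (n + 1) = outw S n ++ blk S n := by
      unfold outw
      rw [List.range_succ, List.flatMap_append]
      simp
    rw [e, List.range_succ, List.filter_append, List.length_append, List.length_append]
    unfold blk
    by_cases hS : n ∈ S
    · simp [hS]; omega
    · simp [hS]; omega

theorem sched_nodup : (sched a S).Nodup := by
  have h1 : (sched a S).toFinset = range (NE a + 1) := by
    ext v
    rw [List.mem_toFinset, mem_sched, mem_range]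
    omega
  have h2 : (sched a S).length = NE a + 1 := by
    unfold sched NE
    have := length_outw S a.length
    simp only [List.length_cons, List.length_append]
    omega
  have h3 : (sched a S).toFinset.card = (sched a S).length := by rw [h1, h2, card_range]
  rw [List.card_toFinset] at h3
  have h4 : (sched a S).dedup = sched a S :=
    (List.dedup_sublist _).eq_of_length h3
  rw [← h4]
  exact List.nodup_dedup _

theorem sum_home (n : ℕ) (hn' : n ≤ a.length) : ((home S n).map (hn a)).sum =
    2 * ∑ i ∈ (range n).filter (· ∈ S), a.getD i 0 := by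
  unfold home
  rw [List.map_reverse, List.sum_reverse]
  induction n with
  | zero => simp
  | succ n ih =>
    have ih := ih (by omega)
    rw [List.range_succ, List.filter_append, List.map_append, List.map_append, List.sum_append, ih,
      range_add_one, filter_insert]
    by_cases hS : n ∈ S
    · have h2 := hn_odd a (show n < a.length by omega)
      simp only [hS, if_true, decide_true, List.filter_cons_of_pos, List.filter_nil,
        List.map_cons, List.map_nil, List.sum_cons, List.sum_nil, h2]
      rw [sum_insert (by simp)]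
      ring
    · simp [hS]

theorem finish_sched (hS : S ⊆ range a.length) (hT : T ≤ a.sum)
    (hsum : ∑ i ∈ S, a.getD i 0 = T) : FT a T 0 0 (sched a S) = KB a T := by
  have hfS : (range a.length).filter (· ∈ S) = S := by
    ext i
    rw [mem_filter]
    exact ⟨fun h => h.2, fun h => ⟨hS h, h⟩⟩
  have hZ : ∑ i ∈ (range a.length).filter (fun i => i ∉ S), a.getD i 0 = a.sum - T := by
    have h1 := sum_filter_add_sum_filter_not (range a.length) (· ∈ S) (fun i => a.getD i 0)
    rw [hfS, hsum, getD_sum] at h1
    omega
  have h0 : FT a T 0 0 (sched a S) =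
      fin (NE a) (ln a) (rl a T) (hn a) 0 1 (outw S a.length ++ NE a :: home S a.length) := by
    unfold FT sched
    simp only [fin]
    have e1 : D (NE a) (ln a) 0 0 = 0 := by
      rw [D_zero _ _ _ (Nat.zero_le _)]
      rfl
    have e2 : rl a T 0 = 0 := rl_even a T 0
    rw [e1, e2, hn_zero]
    rfl
  rw [h0, show (fin (NE a) (ln a) (rl a T) (hn a) 0 1 (outw S a.length ++ NE a :: home S a.length)) =
    fin (NE a) (ln a) (rl a T) (hn a) ((0, 1) : ℕ × ℕ).1 ((0, 1) : ℕ × ℕ).2
      (outw S a.length ++ NE a :: home S a.length) from rfl, fin_append]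
  obtain ⟨h1, h2⟩ := run_outw a T S a.length le_rfl
  generalize run (NE a) (ln a) (rl a T) (hn a) (0, 1) (outw S a.length) = s at h1 h2 ⊢
  simp only [fin]
  have hD := D_prefix (NE a) (ln a) (p := s.1) (q := NE a) (by unfold NE; omega) le_rfl
  rw [sum_ln] at hD
  have h3 : rl a T (NE a) = 1 + a.length * M a + XL a + 4 * (a.sum - T) := by
    unfold rl; rw [if_pos rfl]
  rw [hZ] at h2
  have h4 : s.2 + D (NE a) (ln a) s.1 (NE a) = rl a T (NE a) := by
    rw [h3]
    change PL a s.1 + _ = _ at hD
    omega
  rw [h4, max_self, hn_last, fin_desc, sum_home a S a.length le_rfl, hfS, hsum,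
    D_zero _ _ _ le_rfl, sum_ln, h3]
  · unfold KB
    omega
  · rw [List.pairwise_cons]
    constructor
    · intro v hv
      obtain ⟨i, hi, _, rfl⟩ := (mem_home S a.length v).1 hv
      unfold NE; omega
    · unfold home
      rw [List.pairwise_reverse, List.pairwise_map]
      refine List.Pairwise.filter _ ?_
      refine (List.pairwise_lt_range).imp ?_
      intro x y hxy
      omega
  · intro v hv
    obtain ⟨i, hi, _, rfl⟩ := (mem_home S a.length v).1 hv
    rw [rl_odd a T hi, h3]
    have h5 : (i + 1) * M a ≤ a.length * M a := Nat.mul_le_mul_right _ hi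
    have h6 : PL a (2 * i + 1) ≤ XL a := by
      rw [← sum_ln]
      exact sum_le_sum_of_subset (range_subset_range.2 (by unfold NE; omega))
    omega

end Pool.Agent.X245.VS
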