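import Pool.Agent.X245.VS.Defs
import Pool.Agent.X245.VS.Fwd
import Pool.Agent.X245.Util
import Pool.Agent.H671R2.SubsetSum

/-!
# Scheduling on a path is NP-hard
-/

namespace Pool.Agent.X245.VS

open Pool.Agent.NPC Pool.Agent.NPC.R671.SS Finset

set_option autoImplicit false

/-- the instance -/
def inst (a : List ℕ) (T : ℕ) : Inst where
  n := NE a
  start := 0
  east k := ln a k
  west k := ln a k
  release v := rl a T v
  handling v := hn a v

theorem travel_eq (a : List ℕ) (T : ℕ) (i j : Fin (NE a + 1)) :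
    (inst a T).travel i j = D (NE a) (ln a) i j := by
  unfold Inst.travel D
  rw [Finset.sum_range]
  have hc : ∀ k : Fin (NE a), (i ≤ Fin.castSucc k ↔ i.val ≤ k.val) ∧
      (Fin.castSucc k < j ↔ k.val < j.val) ∧ (j ≤ Fin.castSucc k ↔ j.val ≤ k.val) ∧
      (Fin.castSucc k < i ↔ k.val < i.val) := by
    intro k
    exact ⟨Iff.rfl, Iff.rfl, Iff.rfl, Iff.rfl⟩
  split_ifs with h
  · have h' : i.val ≤ j.val := h
    change (∑ k : Fin (NE a) with i ≤ Fin.castSucc k ∧ Fin.castSucc k < j, ln a k) = _
    rw [sum_filter]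
    refine sum_congr rfl fun k _ => ?_
    have hk := hc k
    unfold cr
    by_cases h1 : k.val < i.val <;> by_cases h2 : k.val < j.val
    · rw [if_neg (by rw [hk.1]; omega)]; simp [h1, h2]
    · omega
    · rw [if_pos (by rw [hk.1, hk.2.1]; omega)]; simp [h1, h2]
    · rw [if_neg (by rw [hk.2.1]; omega)]; simp [h1, h2]
  · have h' : ¬ i.val ≤ j.val := h
    change (∑ k : Fin (NE a) with j ≤ Fin.castSucc k ∧ Fin.castSucc k < i, ln a k) = _
    rw [sum_filter]
    refine sum_congr rfl fun k _ => ?_
    have hk := hc k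
    unfold cr
    by_cases h1 : k.val < i.val <;> by_cases h2 : k.val < j.val
    · rw [if_neg (by rw [hk.2.2.1]; omega)]; simp [h1, h2]
    · rw [if_pos (by rw [hk.2.2.1, hk.2.2.2]; omega)]; simp [h1, h2]
    · omega
    · rw [if_neg (by rw [hk.2.2.2]; omega)]; simp [h1, h2]

theorem finish_eq (a : List ℕ) (T : ℕ) (i : Fin (NE a + 1)) (t : ℕ) (π : List (Fin (NE a + 1))) :
    (inst a T).finish i t π = FT a T i t (π.map Fin.val) := by
  induction π generalizing i t with
  | nil =>
    change t + (inst a T).travel i 0 = t + D _ _ _ _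
    rw [travel_eq]
    rfl
  | cons j π ih =>
    change (inst a T).finish j (max (t + (inst a T).travel i j) (rl a T j) + hn a j) π = _
    rw [ih, travel_eq]
    rfl

theorem subset_of_sublist : ∀ (a s : List ℕ), s.Sublist a →
    ∃ S ⊆ range a.length, ∑ i ∈ S, a.getD i 0 = s.sum := by
  intro a s h
  induction h with
  | slnil => exact ⟨∅, by simp, by simp⟩
  | @cons l₁ l₂ x h ih =>
    obtain ⟨S, hS, hsum⟩ := ih
    refine ⟨S.map ⟨fun i => i + 1, fun _ _ h => by simpa using h⟩, ?_, ?_⟩
    · intro i hi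
      obtain ⟨j, hj, rfl⟩ := Finset.mem_map.1 hi
      have := mem_range.1 (hS hj)
      rw [mem_range, List.length_cons]
      simpa using this
    · rw [sum_map]
      simpa using hsum
  | @cons_cons l₁ l₂ x h ih =>
    obtain ⟨S, hS, hsum⟩ := ih
    refine ⟨insert 0 (S.map ⟨fun i => i + 1, fun _ _ h => by simpa using h⟩), ?_, ?_⟩
    · intro i hi
      rcases Finset.mem_insert.1 hi with hi | hi
      · subst hi; simp
      · obtain ⟨j, hj, rfl⟩ := Finset.mem_map.1 hi
        have := mem_range.1 (hS hj)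
        rw [mem_range, List.length_cons]
        simpa using this
    · rw [sum_insert (by simp), sum_map]
      simp only [List.getD_cons_zero, Function.Embedding.coeFn_mk, List.getD_cons_succ,
        List.sum_cons]
      rw [hsum]

theorem sublist_of_subset : ∀ (a : List ℕ) (S : Finset ℕ), S ⊆ range a.length →
    ∃ s : List ℕ, s.Sublist a ∧ s.sum = ∑ i ∈ S, a.getD i 0 := by
  intro a
  induction a with
  | nil =>
    intro S hS
    have : S = ∅ := Finset.subset_empty.1 (by simpa using hS)
    exact ⟨[], List.Sublist.refl _, by simp [this]⟩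
  | cons x l ih =>
    intro S hS
    classical
    set S' : Finset ℕ := (range l.length).filter fun i => i + 1 ∈ S with hS'
    obtain ⟨s, hs, hsum⟩ := ih S' (filter_subset _ _)
    have key : ∑ i ∈ S, (x :: l).getD i 0 = (if 0 ∈ S then x else 0) +
        ∑ i ∈ S', l.getD i 0 := by
      have e : ∑ i ∈ S, (x :: l).getD i 0 =
          ∑ i ∈ range (l.length + 1), if i ∈ S then (x :: l).getD i 0 else 0 := by
        rw [← sum_filter]
        refine sum_congr ?_ fun _ _ => rfl
        ext i
        rw [mem_filter]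
        exact ⟨fun h => ⟨by simpa using hS h, h⟩, fun h => h.2⟩
      rw [e, sum_range_succ', hS', sum_filter]
      simp only [List.getD_cons_succ, List.getD_cons_zero]
      rw [add_comm]
    by_cases h0 : 0 ∈ S
    · refine ⟨x :: s, hs.cons₂ x, ?_⟩
      rw [key, if_pos h0, List.sum_cons, hsum]
    · refine ⟨s, hs.cons x, ?_⟩
      rw [key, if_neg h0, zero_add, hsum]

theorem svs_iff (x : List ℕ × ℕ) (hx : Nice x) (h0 : 0 < x.2) :
    SubsetSum x ↔ SVSsym (inst x.1 x.2, KB x.1 x.2) := by
  obtain ⟨a, T⟩ := x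
  obtain ⟨hpos, hT⟩ := hx
  simp only at hpos hT h0
  constructor
  · rintro ⟨s, hs, hsum⟩
    simp only at hs hsum
    obtain ⟨S, hS, hS2⟩ := subset_of_sublist a s hs
    refine ⟨rfl, fun k => rfl, ?_, ?_, ?_⟩
    · intro k
      change 0 < ln a k.val
      have hk : k.val < NE a := k.2
      unfold ln
      split_ifs with h1
      · unfold M; omega
      · unfold NE at hk
        rw [List.getD_eq_getElem _ _ (by omega)]
        exact (hpos _ (List.getElem_mem _)).1
    · intro v
      change 0 < hn a v.val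
      have hv : v.val < NE a + 1 := v.2
      unfold hn
      split_ifs with h1 h2
      · exact one_pos
      · unfold M; omega
      · unfold NE at hv h1
        rw [List.getD_eq_getElem _ _ (by omega)]
        have := (hpos _ (List.getElem_mem (show v.val / 2 < a.length by omega))).1
        omega
    · have hmem := mem_sched a S
      have hnd := sched_nodup a S
      have hlt : ∀ v ∈ sched a S, v < NE a + 1 := fun v hv => by
        have := (hmem v).1 hv
        omega
      obtain ⟨π', hπ'⟩ : ∃ π' : List (Fin (NE a + 1)), π'.map Fin.val = sched a S := by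
        refine ⟨(sched a S).pmap (fun v hv => (⟨v, hv⟩ : Fin (NE a + 1))) hlt, ?_⟩
        rw [List.map_pmap, List.pmap_eq_map]
        simp
      refine ⟨π', ⟨?_, ?_⟩, ?_⟩
      · rw [← hπ'] at hnd
        exact List.Nodup.of_map _ hnd
      · intro v
        have h1 : v.val ∈ sched a S :=
          (hmem _).2 (by have := v.2; change v.val < NE a + 1 at this; omega)
        rw [← hπ', List.mem_map] at h1
        obtain ⟨w, hw, hwv⟩ := h1
        rwa [Fin.ext hwv] at hw
      · have h1 := finish_eq a T 0 0 π'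
        rw [hπ'] at h1
        exact le_of_eq (h1.trans (finish_sched a T S hS hT.le (hS2.trans hsum)))
  · rintro ⟨-, -, -, -, π, ⟨hnd, hall⟩, hle⟩
    change (inst a T).finish 0 0 π ≤ KB a T at hle
    rw [finish_eq] at hle
    obtain ⟨S, hS, hS2⟩ := exists_of_finish a T (π := π.map Fin.val)
      (hnd.map Fin.val_injective) (fun v => by
        rw [List.mem_map]
        constructor
        · rintro ⟨w, _, rfl⟩
          have := w.2
          change w.val < NE a + 1 at this
          omega
        · intro h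
          exact ⟨⟨v, by change v < NE a + 1; omega⟩, hall _, rfl⟩) hT.le h0 hle
    obtain ⟨s, hs, hs2⟩ := sublist_of_subset a S hS
    exact ⟨s, hs, hs2.trans hS2⟩

theorem NE_uPoly : UPoly (fun x : List ℕ × ℕ => NE x.1) := by
  unfold NE
  exact UPoly.add (UPoly.mul (UPoly.const 2) (UPoly.length (NPC.Poly.fst NPC.Poly.id)))
    (UPoly.const 1)

theorem inst_poly : NPC.Poly (fun x : List ℕ × ℕ => (inst x.1 x.2, KB x.1 x.2)) := by
  have hx : NPC.Poly (fun p : (List ℕ × ℕ) × ℕ => p.1.1) := NPC.Poly.fst (NPC.Poly.fst NPC.Poly.id)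
  have hln : NPC.Poly (fun x : List ℕ × ℕ => (List.range (NE x.1)).map fun k => ln x.1 k) := by
    refine NPC.Poly.map (F := fun (x : List ℕ × ℕ) k => ln x.1 k) NE_uPoly.range ?_
    unfold ln M
    fun_prop
  have hNE : UPoly (fun x : List ℕ × ℕ => NE x.1 + 1) := NE_uPoly.add (UPoly.const 1)
  have hrl : NPC.Poly (fun x : List ℕ × ℕ => (List.range (NE x.1 + 1)).map fun k =>
      rl x.1 x.2 k) := by
    refine NPC.Poly.map (F := fun (x : List ℕ × ℕ) k => rl x.1 x.2 k) hNE.range ?_
    unfold rl M XL M NE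
    fun_prop
  have hhn : NPC.Poly (fun x : List ℕ × ℕ => (List.range (NE x.1 + 1)).map fun k =>
      hn x.1 k) := by
    refine NPC.Poly.map (F := fun (x : List ℕ × ℕ) k => hn x.1 k) hNE.range ?_
    unfold hn M NE
    fun_prop
  have hK : NPC.Poly (fun x : List ℕ × ℕ => KB x.1 x.2) := by
    unfold KB XL M
    fun_prop
  have h1 : NPC.Poly (fun x : List ℕ × ℕ =>
      (((0 : ℕ), (List.range (NE x.1)).map (fun k => ln x.1 k),
        (List.range (NE x.1)).map (fun k => ln x.1 k),
        (List.range (NE x.1 + 1)).map (fun k => rl x.1 x.2 k),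
        (List.range (NE x.1 + 1)).map (fun k => hn x.1 k)), KB x.1 x.2)) :=
    NPC.Poly.pair (NPC.Poly.pair (NPC.Poly.const 0) (NPC.Poly.pair hln (NPC.Poly.pair hln
      (NPC.Poly.pair hrl hhn)))) hK
  have hfr : ∀ (n : ℕ) (f : ℕ → ℕ), (List.range n).map f =
      (List.finRange n).map (fun k => f k.val) := by
    intro n f
    rw [← List.map_coe_finRange_eq_range, List.map_map]
    rfl
  refine NPC.Poly.of_toT ((NPC.Poly.toT' h1).congr fun x => ?_)
  change T.node (toT _) (toT (KB x.1 x.2)) = T.node (toT (inst x.1 x.2).code) (toT (KB x.1 x.2))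
  congr 2
  unfold Inst.code
  rw [hfr, hfr, hfr]
  rfl

theorem hardI_SVSsym : HardI SVSsym := by
  have h : HardPr (fun x => Nice x ∧ 0 < x.2) SubsetSum := by
    intro L hL
    obtain ⟨f, hf, hpr, hiff⟩ := hardPr_SubsetSum L hL
    refine ⟨f, hf, fun x => ⟨hpr x, ?_⟩, hiff⟩
    obtain ⟨h1, h2⟩ := hpr x
    cases hfx : (f x).1 with
    | nil => rw [hfx] at h2; simp at h2
    | cons c l => have := h1 c (by rw [hfx]; simp); omega
  exact (h.trans (f := fun x : List ℕ × ℕ => (inst x.1 x.2, KB x.1 x.2)) inst_poly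
    (Pr' := fun _ => True) (fun _ _ => trivial) (fun x hx => svs_iff x hx.1 hx.2)).toHardI

theorem hardI_SVS : HardI SVS := by
  have h : HardPr (fun x => Nice x ∧ 0 < x.2) SubsetSum := by
    intro L hL
    obtain ⟨f, hf, hpr, hiff⟩ := hardPr_SubsetSum L hL
    refine ⟨f, hf, fun x => ⟨hpr x, ?_⟩, hiff⟩
    obtain ⟨h1, h2⟩ := hpr x
    cases hfx : (f x).1 with
    | nil => rw [hfx] at h2; simp at h2
    | cons c l => have := h1 c (by rw [hfx]; simp); omega
  refine (h.trans (f := fun x : List ℕ × ℕ => (inst x.1 x.2, KB x.1 x.2)) inst_poly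
    (Pr' := fun _ => True) (fun _ _ => trivial) (fun x hx => ?_)).toHardI
  rw [svs_iff x hx.1 hx.2]
  constructor
  · exact fun h => h.2.2.2
  · intro h
    refine ⟨rfl, fun k => rfl, ?_, h⟩
    intro k
    change 0 < ln x.1 k.val
    have hk : k.val < NE x.1 := k.2
    unfold ln
    split_ifs with h1
    · unfold M; omega
    · unfold NE at hk
      rw [List.getD_eq_getElem _ _ (by omega)]
      exact (hx.1.1 _ (List.getElem_mem _)).1

end Pool.Agent.X245.VS
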