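import Mathlib

/-!
# Scheduling on a path: abstract lists and the reduction from subset sum
-/

namespace Pool.Agent.X245.VS

set_option autoImplicit false

open Finset

section General

variable (N : ℕ) (len r h : ℕ → ℕ)

/-- crossing -/
def cr (k p q : ℕ) : ℕ := if decide (k < p) = decide (k < q) then 0 else 1

/-- distance -/
def D (p q : ℕ) : ℕ := ∑ k ∈ range N, len k * cr k p q

/-- finishing time -/
def fin : ℕ → ℕ → List ℕ → ℕ
  | p, t, [] => t + D N len p 0
  | p, t, j :: l => fin j (max (t + D N len p j) (r j) + h j) l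

/-- total travel -/
def tr : ℕ → List ℕ → ℕ
  | p, [] => D N len p 0
  | p, j :: l => D N len p j + tr j l

/-- crossings of an edge -/
def ch (k : ℕ) : ℕ → List ℕ → ℕ
  | p, [] => cr k p 0
  | p, j :: l => cr k p j + ch k j l

theorem tr_eq (p : ℕ) (l : List ℕ) : tr N len p l = ∑ k ∈ range N, len k * ch k p l := by
  induction l generalizing p with
  | nil => rfl
  | cons j l ih =>
    simp only [tr, ch, ih, D, mul_add, sum_add_distrib]

theorem cr_tri (k p q s : ℕ) : cr k p s ≤ cr k p q + cr k q s := by
  unfold cr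
  by_cases h1 : k < p <;> by_cases h2 : k < q <;> by_cases h3 : k < s <;> simp [h1, h2, h3]

theorem ch_split (k p v : ℕ) (l1 l2 : List ℕ) : cr k p v + ch k v l2 ≤ ch k p (l1 ++ v :: l2) := by
  induction l1 generalizing p with
  | nil => simp [ch]
  | cons j l ih =>
    simp only [List.cons_append, ch]
    have := ih j
    have := cr_tri k p j v
    omega

theorem ch_east (k p : ℕ) (l : List ℕ) (hk : k < p) : 1 ≤ ch k p l := by
  cases l with
  | nil => simp [ch, cr, hk]
  | cons j l =>
    have := ch_split k p j [] l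
    by_cases hj : k < j
    · have h2 : 1 ≤ ch k j l := ch_east k j l hj
      simp only [ch]
      omega
    · simp only [ch]
      have : cr k p j = 1 := by simp [cr, hk, hj]
      omega

theorem cr_one {k p q : ℕ} (h : ¬ (k < p ↔ k < q)) : cr k p q = 1 := by
  unfold cr
  rw [if_neg]
  intro h'
  exact h (by simpa using h')

theorem ch_two {k p v : ℕ} {l : List ℕ} (hk : p ≤ k) (hv : v ∈ l) (hkv : k < v) :
    2 ≤ ch k p l := by
  obtain ⟨l1, l2, rfl⟩ := List.append_of_mem hv
  have h1 := ch_split k p v l1 l2
  have h2 := ch_east k v l2 hkv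
  have h3 : cr k p v = 1 := cr_one (by omega)
  omega

theorem ch_four {k p u v w : ℕ} {l1 l2 l3 l4 : List ℕ} (hk : p ≤ k) (hu : k < u) (hv : v ≤ k)
    (hw : k < w) : 4 ≤ ch k p (l1 ++ u :: (l2 ++ v :: (l3 ++ w :: l4))) := by
  have h1 := ch_split k p u l1 (l2 ++ v :: (l3 ++ w :: l4))
  have h2 := ch_split k u v l2 (l3 ++ w :: l4)
  have h3 := ch_split k v w l3 l4
  have h4 := ch_east k w l4 hw
  have e1 : cr k p u = 1 := cr_one (by omega)
  have e2 : cr k u v = 1 := cr_one (by omega)
  have e3 : cr k v w = 1 := cr_one (by omega)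
  omega

theorem fin_ge (p t : ℕ) (l : List ℕ) : t + (l.map h).sum + tr N len p l ≤ fin N len r h p t l := by
  induction l generalizing p t with
  | nil => simp [tr, fin]
  | cons j l ih =>
    simp only [fin, tr, List.map_cons, List.sum_cons]
    have := ih j (max (t + D N len p j) (r j) + h j)
    have := le_max_left (t + D N len p j) (r j)
    omega

theorem fin_ge_release (p t v : ℕ) (l1 l2 : List ℕ) :
    r v + h v + (l2.map h).sum + tr N len v l2 ≤ fin N len r h p t (l1 ++ v :: l2) := by
  induction l1 generalizing p t with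
  | nil =>
    simp only [List.nil_append, fin]
    have := fin_ge N len r h v (max (t + D N len p v) (r v) + h v) l2
    have := le_max_right (t + D N len p v) (r v)
    omega
  | cons j l ih =>
    simp only [List.cons_append, fin]
    exact ih _ _

theorem D_comm (p q : ℕ) : D N len p q = D N len q p := by
  unfold D cr
  refine sum_congr rfl fun k _ => ?_
  by_cases h1 : k < p <;> by_cases h2 : k < q <;> simp [h1, h2]

theorem D_zero (p : ℕ) (hp : p ≤ N) : D N len p 0 = ∑ k ∈ range p, len k := by
  unfold D cr
  obtain ⟨c, rfl⟩ := Nat.exists_eq_add_of_le hp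
  rw [sum_range_add]
  have h1 : ∑ x ∈ range p, (len x * if decide (x < p) = decide (x < 0) then 0 else 1) =
      ∑ k ∈ range p, len k := by
    refine sum_congr rfl fun k hk => ?_
    have := mem_range.1 hk
    simp [this]
  rw [h1]
  simp

theorem D_add {p q s : ℕ} (h1 : p ≤ q) (h2 : q ≤ s) : D N len p s = D N len p q + D N len q s := by
  unfold D
  rw [← sum_add_distrib]
  refine sum_congr rfl fun k _ => ?_
  rw [← mul_add]
  congr 1
  unfold cr
  by_cases h3 : k < p <;> by_cases h4 : k < q <;> by_cases h5 : k < s <;>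
    simp [h3, h4, h5] <;> omega

/-- going home -/
theorem fin_desc (p t : ℕ) (l : List ℕ) (hl : (p :: l).Pairwise (fun x y => y ≤ x))
    (hr : ∀ v ∈ l, r v ≤ t) : fin N len r h p t l = t + D N len p 0 + (l.map h).sum := by
  induction l generalizing p t with
  | nil => simp [fin]
  | cons j l ih =>
    simp only [fin, List.map_cons, List.sum_cons]
    have hj : j ≤ p := (List.pairwise_cons.1 hl).1 j (by simp)
    have hrj := hr j (by simp)
    rw [max_eq_left (by omega), ih j _ (List.pairwise_cons.1 hl).2
      (fun v hv => by have := hr v (by simp [hv]); omega)]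
    have h3 := D_add N len (Nat.zero_le j) hj
    rw [D_comm N len 0 p, D_comm N len 0 j, D_comm N len j p] at h3
    omega

end General

/-- pairs -/
theorem sum_pairs (n : ℕ) (f : ℕ → ℕ) :
    ∑ k ∈ range (2 * n), f k = ∑ i ∈ range n, (f (2 * i) + f (2 * i + 1)) := by
  induction n with
  | zero => rfl
  | succ n ih =>
    rw [show 2 * (n + 1) = 2 * n + 1 + 1 by ring, sum_range_succ, sum_range_succ, ih,
      sum_range_succ]
    ring

section Red

variable (a : List ℕ) (T : ℕ)

/-- big number -/
def M : ℕ := 4 * a.sum + 2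

/-- number of edges -/
def NE : ℕ := 2 * a.length + 1

/-- lengths of the edges -/
def ln (k : ℕ) : ℕ := if k % 2 = 0 then M a else a.getD (k / 2) 0

/-- total length -/
def XL : ℕ := (a.length + 1) * M a + a.sum

/-- handling times -/
def hn (v : ℕ) : ℕ :=
  if v = 0 ∨ v = NE a then 1 else if v % 2 = 0 then M a else 2 * a.getD (v / 2) 0

/-- release times -/
def rl (v : ℕ) : ℕ :=
  if v = NE a then 1 + a.length * M a + XL a + 4 * (a.sum - T)
  else if v % 2 = 1 then (v / 2 + 1) * M a + ((v / 2 + 1) * M a + (a.take (v / 2)).sum) else 0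

/-- the bound -/
def KB : ℕ := 2 + a.length * M a + 2 * a.sum + 2 * XL a + 2 * (a.sum - T)

theorem getD_sum_take (i : ℕ) : ∑ j ∈ range i, a.getD j 0 = (a.take i).sum := by
  induction a generalizing i with
  | nil => simp
  | cons x l ih =>
    cases i with
    | zero => simp
    | succ i =>
      rw [sum_range_succ', List.take_succ_cons, List.sum_cons, ← ih i]
      simp [add_comm]

theorem getD_sum : ∑ j ∈ range a.length, a.getD j 0 = a.sum := by
  rw [getD_sum_take, List.take_length]

theorem take_sum_le (i : ℕ) : (a.take i).sum ≤ a.sum :=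
  List.Sublist.sum_le_sum (List.take_sublist i a) (fun _ _ => Nat.zero_le _)

/-- prefix sums of the lengths -/
theorem sum_ln_even (i : ℕ) : ∑ k ∈ range (2 * i), ln a k = i * M a + (a.take i).sum := by
  rw [sum_pairs]
  have : ∀ j ∈ range i, ln a (2 * j) + ln a (2 * j + 1) = M a + a.getD j 0 := by
    intro j _
    unfold ln
    rw [if_pos (by omega), if_neg (by omega), show (2 * j + 1) / 2 = j by omega]
  rw [sum_congr rfl this, sum_add_distrib, getD_sum_take, sum_const, card_range, smul_eq_mul]

theorem sum_ln_odd (i : ℕ) :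
    ∑ k ∈ range (2 * i + 1), ln a k = (i + 1) * M a + (a.take i).sum := by
  rw [sum_range_succ, sum_ln_even]
  have : ln a (2 * i) = M a := by unfold ln; rw [if_pos (by omega)]
  rw [this]; ring

theorem sum_ln : ∑ k ∈ range (NE a), ln a k = XL a := by
  unfold NE XL
  rw [sum_ln_odd, List.take_length]

theorem hn_odd {i : ℕ} (hi : i < a.length) : hn a (2 * i + 1) = 2 * a.getD i 0 := by
  unfold hn NE
  rw [if_neg (by omega), if_neg (by omega), show (2 * i + 1) / 2 = i by omega]

theorem hn_even {i : ℕ} (hi : i < a.length) : hn a (2 * i + 2) = M a := by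
  unfold hn NE
  rw [if_neg (by omega), if_pos (by omega)]

theorem hn_zero : hn a 0 = 1 := by unfold hn; simp

theorem hn_last : hn a (NE a) = 1 := by unfold hn; simp

theorem sum_hn_pre {i : ℕ} (hi : i < a.length) :
    ∑ v ∈ range (2 * i + 2), hn a v = 1 + i * M a + 2 * (a.take (i + 1)).sum := by
  rw [sum_range_succ', hn_zero, sum_range_succ, hn_odd a hi, sum_pairs]
  have : ∀ j ∈ range i, hn a (2 * j + 1) + hn a (2 * j + 1 + 1) = 2 * a.getD j 0 + M a := by
    intro j hj
    have hj := mem_range.1 hj
    rw [hn_odd a (by omega), hn_even a (by omega)]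
  rw [sum_congr rfl this, sum_add_distrib, ← mul_sum, sum_const, card_range, smul_eq_mul,
    ← getD_sum_take a (i + 1), sum_range_succ]
  ring

theorem sum_hn : ∑ v ∈ range (NE a + 1), hn a v = 2 + a.length * M a + 2 * a.sum := by
  rw [sum_range_succ, hn_last, show NE a = 2 * a.length + 1 from rfl, sum_range_succ', hn_zero,
    sum_pairs]
  have : ∀ j ∈ range a.length, hn a (2 * j + 1) + hn a (2 * j + 1 + 1) = 2 * a.getD j 0 + M a := by
    intro j hj
    have hj := mem_range.1 hj
    rw [hn_odd a (by omega), hn_even a (by omega)]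
  rw [sum_congr rfl this, sum_add_distrib, ← mul_sum, sum_const, card_range, smul_eq_mul, getD_sum]
  ring

/-- finishing time of the instance -/
abbrev FT (p t : ℕ) (l : List ℕ) : ℕ := fin (NE a) (ln a) (rl a T) (hn a) p t l

theorem exists_of_finish {π : List ℕ} (hnd : π.Nodup) (hmem : ∀ v, v ∈ π ↔ v ≤ NE a)
    (hT : T ≤ a.sum) (hT0 : 0 < T) (hle : FT a T 0 0 π ≤ KB a T) :
    ∃ S ⊆ range a.length, ∑ i ∈ S, a.getD i 0 = T := by
  classical
  have hM : M a = 4 * a.sum + 2 := rfl
  have hsum : (π.map (hn a)).sum = 2 + a.length * M a + 2 * a.sum := by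
    rw [← sum_hn, ← List.sum_toFinset _ hnd]
    refine sum_congr ?_ fun _ _ => rfl
    ext v
    rw [List.mem_toFinset, hmem, mem_range]
    omega
  have hF : NE a ∈ π := (hmem _).2 le_rfl
  obtain ⟨l1, l2, hπ⟩ := List.append_of_mem hF
  -- total travel
  have htr : 2 + a.length * M a + 2 * a.sum + tr (NE a) (ln a) 0 π ≤ KB a T := by
    have := fin_ge (NE a) (ln a) (rl a T) (hn a) 0 0 π
    have h2 : fin (NE a) (ln a) (rl a T) (hn a) 0 0 π ≤ KB a T := hle
    omega
  have hch2 : ∀ k ∈ range (NE a), 2 ≤ ch k 0 π := fun k hk =>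
    ch_two (Nat.zero_le k) hF (mem_range.1 hk)
  -- no long zigzag
  have hzig : ∀ i < a.length, ch (2 * i + 2) 0 π < 4 := by
    intro i hi
    by_contra hcon
    push Not at hcon
    have h1 : ∑ k ∈ range (NE a), (ln a k * 2 + if k = 2 * i + 2 then ln a k * 2 else 0) ≤
        tr (NE a) (ln a) 0 π := by
      rw [tr_eq]
      refine sum_le_sum fun k hk => ?_
      split_ifs with hki
      · subst hki
        rw [← mul_add]
        exact Nat.mul_le_mul_left _ hcon
      · rw [add_zero]
        exact Nat.mul_le_mul_left _ (hch2 k hk)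
    rw [sum_add_distrib, ← sum_mul, sum_ln, sum_ite_eq', if_pos (by
      rw [mem_range]; unfold NE; omega)] at h1
    have h2 : ln a (2 * i + 2) = M a := by unfold ln; rw [if_pos (by omega)]
    rw [h2] at h1
    unfold KB at htr
    omega
  -- after the last job
  have hafter : (l2.map (hn a)).sum ≤ 2 * T := by
    have h1 := fin_ge_release (NE a) (ln a) (rl a T) (hn a) 0 0 (NE a) l1 l2
    rw [← hπ] at h1
    have h2 : fin (NE a) (ln a) (rl a T) (hn a) 0 0 π ≤ KB a T := hle
    have h3 : XL a ≤ tr (NE a) (ln a) (NE a) l2 := by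
      rw [tr_eq, ← sum_ln]
      refine sum_le_sum fun k hk => ?_
      have := ch_east k (NE a) l2 (mem_range.1 hk)
      exact Nat.le_mul_of_pos_right _ this
    have h4 : rl a T (NE a) = 1 + a.length * M a + XL a + 4 * (a.sum - T) := by
      unfold rl; rw [if_pos rfl]
    rw [h4, hn_last] at h1
    unfold KB at h2
    omega
  have hnd' : l1.Nodup ∧ (NE a :: l2).Nodup ∧ ∀ x ∈ l1, ∀ y ∈ NE a :: l2, x ≠ y := by
    rw [hπ] at hnd
    exact List.nodup_append.1 hnd
  have hndl2 : l2.Nodup := (List.nodup_cons.1 hnd'.2.1).2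
  set S : Finset ℕ := (range a.length).filter fun i => 2 * i + 1 ∈ l2 with hS
  set Z : Finset ℕ := (range a.length).filter fun i => ¬ 2 * i + 1 ∈ l2 with hZ
  have hSZ : ∑ i ∈ S, a.getD i 0 + ∑ i ∈ Z, a.getD i 0 = a.sum := by
    rw [hS, hZ, sum_filter_add_sum_filter_not, getD_sum]
  -- the early jobs
  have hSle : ∑ i ∈ S, a.getD i 0 ≤ T := by
    have h1 : ∑ i ∈ S, hn a (2 * i + 1) ≤ (l2.map (hn a)).sum := by
      rw [← List.sum_toFinset _ hndl2]
      have h2 : ∑ i ∈ S, hn a (2 * i + 1) = ∑ v ∈ S.image (fun i => 2 * i + 1), hn a v := by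
        rw [sum_image]
        intro x _ y _ hxy
        simp only at hxy
        omega
      rw [h2]
      refine sum_le_sum_of_subset ?_
      intro v hv
      obtain ⟨i, hi, rfl⟩ := mem_image.1 hv
      exact List.mem_toFinset.2 (mem_filter.1 hi).2
    have h2 : ∑ i ∈ S, hn a (2 * i + 1) = 2 * ∑ i ∈ S, a.getD i 0 := by
      rw [mul_sum]
      refine sum_congr rfl fun i hi => ?_
      exact hn_odd a (mem_range.1 (mem_filter.1 hi).1)
    omega
  -- the zigzags
  have hZch : ∀ i ∈ Z, 4 ≤ ch (2 * i + 1) 0 π := by
    intro i hi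
    have hin : i < a.length := mem_range.1 (mem_filter.1 hi).1
    have hi2 : 2 * i + 1 ∉ l2 := (mem_filter.1 hi).2
    have hm : 2 * i + 1 ∈ l1 := by
      have h1 : 2 * i + 1 ∈ π := (hmem _).2 (by unfold NE; omega)
      rw [hπ, List.mem_append, List.mem_cons] at h1
      rcases h1 with h1 | h1 | h1
      · exact h1
      · unfold NE at h1; omega
      · exact absurd h1 hi2
    have hy : 2 * i + 2 ∈ l1 := by
      have h1 : 2 * i + 2 ∈ π := (hmem _).2 (by unfold NE; omega)
      rw [hπ, List.mem_append, List.mem_cons] at h1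
      rcases h1 with h1 | h1 | h1
      · exact h1
      · unfold NE at h1; omega
      · exfalso
        have h2 : hn a (2 * i + 2) ≤ (l2.map (hn a)).sum :=
          List.single_le_sum (fun _ _ => Nat.zero_le _) _ (List.mem_map_of_mem h1)
        rw [hn_even a hin] at h2
        omega
    obtain ⟨p1, p2, hp⟩ := List.append_of_mem hm
    rw [hp, List.mem_append, List.mem_cons] at hy
    rcases hy with hy | hy | hy
    · -- `y` before `m`
      obtain ⟨q1, q2, hq⟩ := List.append_of_mem hy
      rw [hπ, hp, hq]
      have e : q1 ++ (2 * i + 2) :: q2 ++ (2 * i + 1) :: p2 ++ NE a :: l2 =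
          q1 ++ (2 * i + 2) :: (q2 ++ (2 * i + 1) :: (p2 ++ NE a :: l2)) := by simp
      rw [e]
      exact ch_four (Nat.zero_le _) (by omega) le_rfl (by unfold NE; omega)
    · omega
    · -- `m` before `y`: impossible
      exfalso
      have hπ' : π = p1 ++ (2 * i + 1) :: (p2 ++ NE a :: l2) := by
        rw [hπ, hp]; simp
      have hndp : (p2 ++ NE a :: l2).Nodup := by
        rw [hπ'] at hnd
        exact (List.nodup_cons.1 (List.nodup_append.1 hnd).2.1).2
      -- all the vertices to the east come later
      have hlater : ∀ v, 2 * i + 2 ≤ v → v ≤ NE a → v ∈ p2 ++ NE a :: l2 := by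
        intro v h1 h2
        rcases Nat.eq_or_lt_of_le h1 with h3 | h3
        · rw [← h3]
          exact List.mem_append_left _ hy
        · have h4 : v ∈ π := (hmem v).2 h2
          rw [hπ', List.mem_append, List.mem_cons] at h4
          rcases h4 with h4 | h4 | h4
          · exfalso
            obtain ⟨q1, q2, hq⟩ := List.append_of_mem h4
            have h5 := hzig i hin
            rw [hπ', hq] at h5
            have e : q1 ++ v :: q2 ++ (2 * i + 1) :: (p2 ++ NE a :: l2) =
              q1 ++ v :: (q2 ++ (2 * i + 1) :: (p2 ++ NE a :: l2)) := by simp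
            rw [e] at h5
            have h6 := ch_four (k := 2 * i + 2) (p := 0) (u := v) (v := 2 * i + 1) (w := NE a)
              (l1 := q1) (l2 := q2) (l3 := p2) (l4 := l2) (Nat.zero_le _) h3 (by omega)
              (by unfold NE; omega)
            omega
          · omega
          · exact h4
      have h1 := fin_ge_release (NE a) (ln a) (rl a T) (hn a) 0 0 (2 * i + 1) p1
        (p2 ++ NE a :: l2)
      rw [← hπ'] at h1
      have h2 : fin (NE a) (ln a) (rl a T) (hn a) 0 0 π ≤ KB a T := hle
      have h3 : ∑ v ∈ Ico (2 * i + 2) (NE a + 1), hn a v ≤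
          ((p2 ++ NE a :: l2).map (hn a)).sum := by
        rw [← List.sum_toFinset _ hndp]
        refine sum_le_sum_of_subset ?_
        intro v hv
        rw [mem_Ico] at hv
        exact List.mem_toFinset.2 (hlater v hv.1 (by omega))
      have h4 : ∑ v ∈ range (2 * i + 2), hn a v + ∑ v ∈ Ico (2 * i + 2) (NE a + 1), hn a v =
          ∑ v ∈ range (NE a + 1), hn a v := by
        rw [range_eq_Ico, range_eq_Ico]
        exact sum_Ico_consecutive _ (Nat.zero_le _) (by unfold NE; omega)
      rw [sum_hn_pre a hin, sum_hn] at h4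
      have h5 := take_sum_le a (i + 1)
      have h6 : 2 * XL a ≤ tr (NE a) (ln a) (2 * i + 1) (p2 ++ NE a :: l2) +
          ((i + 1) * M a + (a.take i).sum) := by
        rw [tr_eq, ← sum_ln_odd]
        have h7 : ∑ k ∈ range (2 * i + 1), ln a k =
            ∑ k ∈ range (NE a), if k < 2 * i + 1 then ln a k else 0 := by
          rw [← sum_filter]
          refine sum_congr ?_ fun _ _ => rfl
          ext k
          rw [mem_filter, mem_range, mem_range]
          unfold NE
          omega
        rw [h7, ← sum_add_distrib, ← sum_ln, mul_sum]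
        refine sum_le_sum fun k hk => ?_
        by_cases hki : k < 2 * i + 1
        · rw [if_pos hki]
          have := ch_east k (2 * i + 1) (p2 ++ NE a :: l2) hki
          have := Nat.mul_le_mul_left (ln a k) this
          omega
        · rw [if_neg hki, add_zero]
          have := ch_two (k := k) (p := 2 * i + 1) (v := NE a) (l := p2 ++ NE a :: l2) (by omega)
            (by simp) (mem_range.1 hk)
          have := Nat.mul_le_mul_left (ln a k) this
          omega
      have h7 : rl a T (2 * i + 1) = (i + 1) * M a + ((i + 1) * M a + (a.take i).sum) := by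
        unfold rl
        rw [if_neg (by unfold NE; omega), if_pos (by omega), show (2 * i + 1) / 2 = i by omega]
      rw [h7] at h1
      unfold KB at h2
      have h8 : (i + 1) * M a = i * M a + M a := by ring
      omega
  have hZle : ∑ i ∈ Z, a.getD i 0 ≤ a.sum - T := by
    have h1 : ∑ k ∈ range (NE a), (ln a k * 2 +
        if k % 2 = 1 ∧ k / 2 ∈ Z then ln a k * 2 else 0) ≤ tr (NE a) (ln a) 0 π := by
      rw [tr_eq]
      refine sum_le_sum fun k hk => ?_
      split_ifs with hki
      · have h4 := hZch _ hki.2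
        rw [show 2 * (k / 2) + 1 = k by omega] at h4
        rw [← mul_add]
        exact Nat.mul_le_mul_left _ h4
      · rw [add_zero]
        exact Nat.mul_le_mul_left _ (hch2 k hk)
    rw [sum_add_distrib, ← sum_mul, sum_ln] at h1
    have h2 : ∑ i ∈ Z, a.getD i 0 * 2 ≤ ∑ k ∈ range (NE a),
        (if k % 2 = 1 ∧ k / 2 ∈ Z then ln a k * 2 else 0) := by
      rw [← sum_filter]
      have h3 : ∑ i ∈ Z, a.getD i 0 * 2 = ∑ v ∈ Z.image (fun i => 2 * i + 1), ln a v * 2 := by
        rw [sum_image]
        · refine sum_congr rfl fun i _ => ?_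
          unfold ln
          rw [if_neg (by omega), show (2 * i + 1) / 2 = i by omega]
        · intro x _ y _ hxy
          simp only at hxy
          omega
      rw [h3]
      refine sum_le_sum_of_subset ?_
      intro v hv
      obtain ⟨i, hi, rfl⟩ := mem_image.1 hv
      have hin : i < a.length := mem_range.1 (mem_filter.1 hi).1
      rw [mem_filter, mem_range, show (2 * i + 1) / 2 = i by omega]
      refine ⟨by unfold NE; omega, by omega, hi⟩
    rw [← sum_mul] at h2
    unfold KB at htr
    omega
  exact ⟨S, filter_subset _ _, by omega⟩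

end Red

end Pool.Agent.X245.VS
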